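import Pool.Agent.H41.AL.Defs

set_option autoImplicit false

/-!
# Correspondence packings: the random greedy run
-/

namespace Pool.Agent.H713.AL

open Equiv Pool.Agent.H41.AL Finset

variable {V : Type} [Fintype V] [DecidableEq V] (G : SimpleGraph V) [DecidableRel G.Adj]
  {n K : ℕ} (ρ : V → Fin K) (σ : V → V → Perm (Fin n)) (L : ℕ → ℕ)

/-- the growth factor of the weights -/
noncomputable def rr (i : ℕ) : ℝ := (L i : ℝ) / (L i - 1)

/-- processed neighbours in the class `i` -/
def si (U : Finset V) (w : V) (i : ℕ) : ℕ := (U.filter fun u => G.Adj w u ∧ (ρ u : ℕ) = i).card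

/-- processed neighbours -/
def ss (U : Finset V) (w : V) : ℕ := (U.filter (G.Adj w)).card

/-- bound of the weights -/
noncomputable def Bd (U : Finset V) (w : V) : ℝ := ∏ i ∈ range K, rr L i ^ si G ρ U w i

/-- the state of the process -/
structure State (γ lam : ℝ) (U : Finset V) (φ : V → Perm (Fin n)) (W : V → Mx n) : Prop where
  mono : ∀ u ∈ U, ∀ w, w ∉ U → ρ u ≤ ρ w
  pack : ∀ u ∈ U, ∀ v ∈ U, G.Adj u v → ∀ i, φ v i ≠ σ u v (φ u i)
  supp : ∀ w, w ∉ U → ∀ u ∈ U, G.Adj u w → ∀ j c, W w j c ≠ 0 → σ u w (φ u j) ≠ c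
  bd : ∀ w, w ∉ U → ∀ j c, 0 ≤ W w j c ∧ W w j c ≤ Bd G ρ L U w
  pot : ∑ w ∈ Uᶜ, Psi lam (W w) * Real.exp (-(γ * ss G U w)) ≤ Fintype.card V * (5 * (n : ℝ) ^ 2)

variable {G ρ σ L}

theorem rr_ge {i : ℕ} (h : 3 ≤ L i) : 1 ≤ rr L i := by
  unfold rr
  have : (3 : ℝ) ≤ L i := by exact_mod_cast h
  rw [le_div_iff₀ (by linarith)]
  linarith

theorem prod_le_A {A : ℕ → ℝ} {d : ℕ} (hA0 : A 0 = 1) (hL : ∀ i, i < K → 3 ≤ L i)
    (hA : ∀ i, i < K → A i * ((L i : ℝ) / (L i - 1)) ^ d ≤ A (i + 1)) :
    ∀ m, m ≤ K → ∏ i ∈ range m, rr L i ^ d ≤ A m ∧ 1 ≤ A m := by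
  intro m
  induction m with
  | zero => intro _; simp [hA0]
  | succ m ih =>
    intro hm
    obtain ⟨h1, h2⟩ := ih (by omega)
    have hr : 1 ≤ rr L m := rr_ge (hL m (by omega))
    have h3 := hA m (by omega)
    have h4 : 1 ≤ rr L m ^ d := one_le_pow₀ hr
    have h5 : A m * rr L m ^ d ≤ A (m + 1) := h3
    refine ⟨?_, ?_⟩
    · rw [prod_range_succ]
      exact (mul_le_mul_of_nonneg_right h1 (by linarith)).trans h5
    · nlinarith

theorem Bd_le {A : ℕ → ℝ} {d : ℕ} (hA0 : A 0 = 1) (hL : ∀ i, i < K → 3 ≤ L i)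
    (hA : ∀ i, i < K → A i * ((L i : ℝ) / (L i - 1)) ^ d ≤ A (i + 1))
    (hd : ∀ v i, (Finset.univ.filter fun u => G.Adj v u ∧ ρ u = i).card ≤ d)
    {U : Finset V} {i₀ : ℕ} (hi₀ : i₀ < K) (hU : ∀ u ∈ U, (ρ u : ℕ) ≤ i₀) (w : V) :
    Bd G ρ L U w ≤ A (i₀ + 1) := by
  unfold Bd
  have h0 : ∏ i ∈ range K, rr L i ^ si G ρ U w i = ∏ i ∈ range (i₀ + 1), rr L i ^ si G ρ U w i := by
    symm
    refine prod_subset (range_subset_range.2 (by omega)) fun i _ hi => ?_
    have : si G ρ U w i = 0 := by
      unfold si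
      rw [card_eq_zero, filter_eq_empty_iff]
      intro u hu ⟨_, h2⟩
      have := hU u hu
      rw [mem_range] at hi
      omega
    rw [this, pow_zero]
  rw [h0]
  refine le_trans ?_ (prod_le_A hA0 hL hA (i₀ + 1) (by omega)).1
  refine prod_le_prod (fun i hi => ?_) fun i hi => ?_
  · have hi' : i < K := by
      rw [mem_range] at hi
      omega
    have := rr_ge (hL i hi')
    positivity
  · have hi' : i < K := by
      rw [mem_range] at hi
      omega
    refine pow_le_pow_right₀ (rr_ge (hL i hi')) ?_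
    refine le_trans (card_le_card ?_) (hd w ⟨i, hi'⟩)
    intro u hu
    simp only [mem_filter, mem_univ, true_and, Fin.ext_iff] at hu ⊢
    exact hu.2

theorem Psi_terms {lam : ℝ} (W : Mx n) :
    0 ≤ Psi lam W ∧
    (∀ j, Real.exp (lam * (rowS W j - n)) ≤ Psi lam W ∧
      Real.exp (-lam * (rowS W j - n)) ≤ Psi lam W) ∧
    (∀ c, Real.exp (lam * (colS W c - n)) ≤ Psi lam W ∧
      Real.exp (-lam * (colS W c - n)) ≤ Psi lam W) ∧
    ∀ j j', j ≠ j' → Real.exp (lam * (cod W j j' - n)) ≤ Psi lam W := by
  have hR : ∀ j ∈ (univ : Finset (Fin n)), 0 ≤ Real.exp (lam * (rowS W j - n)) +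
    Real.exp (-lam * (rowS W j - n)) := fun j _ => by positivity
  have hC : ∀ c ∈ (univ : Finset (Fin n)), 0 ≤ Real.exp (lam * (colS W c - n)) +
    Real.exp (-lam * (colS W c - n)) := fun j _ => by positivity
  have hQ1 : ∀ j : Fin n, ∀ j' ∈ (univ : Finset (Fin n)), 0 ≤ (if j = j' then 0 else
    Real.exp (lam * (cod W j j' - n))) := fun j j' _ => by
      split_ifs
      · exact le_rfl
      · exact (Real.exp_pos _).le
  have hQ : ∀ j ∈ (univ : Finset (Fin n)), 0 ≤ ∑ j', (if j = j' then 0 else
    Real.exp (lam * (cod W j j' - n))) := fun j _ => sum_nonneg (hQ1 j)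
  have sR := sum_nonneg hR
  have sC := sum_nonneg hC
  have sQ := sum_nonneg hQ
  refine ⟨?_, fun j => ?_, fun c => ?_, fun j j' hj => ?_⟩
  · unfold Psi
    linarith
  · have h1 := single_le_sum hR (mem_univ j)
    have h2 := Real.exp_pos (lam * (rowS W j - n))
    have h3 := Real.exp_pos (-lam * (rowS W j - n))
    unfold Psi
    constructor <;> linarith
  · have h1 := single_le_sum hC (mem_univ c)
    have h2 := Real.exp_pos (lam * (colS W c - n))
    have h3 := Real.exp_pos (-lam * (colS W c - n))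
    unfold Psi
    constructor <;> linarith
  · have h1 := single_le_sum hQ (mem_univ j)
    have h2 := single_le_sum (hQ1 j) (mem_univ j')
    rw [if_neg hj] at h2
    unfold Psi
    linarith

theorem good_of {lam η a : ℝ} (hlam : 0 < lam) {W : Mx n} (hW : ∀ j c, 0 ≤ W j c ∧ W j c ≤ a)
    (h : Psi lam W ≤ Real.exp (lam * (η * n))) : Good n η a W := by
  obtain ⟨_, hR, hC, hQ⟩ := Psi_terms (lam := lam) W
  have key : ∀ x : ℝ, Real.exp (lam * x) ≤ Psi lam W → x ≤ η * n := fun x hx => by
    have := Real.exp_le_exp.1 (hx.trans h)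
    exact le_of_mul_le_mul_left this hlam
  have key' : ∀ x : ℝ, Real.exp (-lam * x) ≤ Psi lam W → -x ≤ η * n := fun x hx => by
    refine key (-x) ?_
    rwa [mul_neg, ← neg_mul]
  refine ⟨hW, fun j => ?_, fun c => ?_, fun j j' hj => ?_⟩
  · rw [abs_le]
    have := key _ (hR j).1
    have := key' _ (hR j).2
    constructor <;> linarith
  · rw [abs_le]
    have := key _ (hC c).1
    have := key' _ (hC c).2
    constructor <;> linarith
  · have := key _ (hQ j j' hj)
    linarith

theorem init (γ lam : ℝ) : State G ρ σ L γ lam ∅ (fun _ => 1) (fun _ _ _ => 1) where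
  mono := by simp
  pack := by simp
  supp := by simp
  bd := by
    intro w _ j c
    simp [Bd, si]
  pot := by
    have e : Psi lam (fun _ _ => 1 : Mx n) ≤ 5 * (n : ℝ) ^ 2 := by
      have hr : ∀ j, rowS (fun _ _ => 1 : Mx n) j - n = 0 := fun j => by simp [rowS]
      have hc : ∀ j, colS (fun _ _ => 1 : Mx n) j - n = 0 := fun j => by simp [colS]
      have hq : ∀ j j', cod (fun _ _ => 1 : Mx n) j j' - n = 0 := fun j j' => by simp [cod]
      unfold Psi
      simp only [hr, hc, hq, mul_zero, Real.exp_zero, sum_const, card_univ, Fintype.card_fin,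
        nsmul_eq_mul]
      have h1 : ∑ j : Fin n, ∑ j' : Fin n, (if j = j' then (0 : ℝ) else 1) ≤
          ∑ j : Fin n, ∑ j' : Fin n, (if j = j' then (0 : ℝ) else 1) := le_rfl
      have h2 : ∀ j : Fin n, ∑ j' : Fin n, (if j = j' then (0 : ℝ) else 1) = n - 1 := by
        intro j
        have : ∀ j' : Fin n, (if j = j' then (0 : ℝ) else 1) = 1 - (if j = j' then 1 else 0) := by
          intro j'
          split_ifs <;> norm_num
        simp only [this, sum_sub_distrib, sum_const, card_univ, Fintype.card_fin, nsmul_eq_mul,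
          mul_one, sum_ite_eq, mem_univ, if_true]
      simp only [h2, sum_const, card_univ, Fintype.card_fin, nsmul_eq_mul]
      rcases Nat.eq_zero_or_pos n with hn | hn
      · subst hn
        simp
      · have : (1 : ℝ) ≤ n := by exact_mod_cast hn
        nlinarith
    have e2 : ∀ w : V, ss G ∅ w = 0 := fun w => by simp [ss]
    simp only [e2, Nat.cast_zero, mul_zero, neg_zero, Real.exp_zero, mul_one, compl_empty, sum_const,
      card_univ, nsmul_eq_mul]
    exact mul_le_mul_of_nonneg_left e (by positivity)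

theorem upd_bd {m : ℕ} (hm : 3 ≤ m) (M : Fin m → Perm (Fin n)) (k : Fin m) (g : Perm (Fin n))
    (W : Mx n) {B : ℝ} (hW : ∀ j c, 0 ≤ W j c ∧ W j c ≤ B) (j c : Fin n) :
    0 ≤ upd M k g W j c ∧ upd M k g W j c ≤ B * ((m : ℝ) / (m - 1)) := by
  have hm' : (3 : ℝ) ≤ m := by exact_mod_cast hm
  have hr : 1 ≤ (m : ℝ) / (m - 1) := by
    rw [le_div_iff₀ (by linarith)]
    linarith
  obtain ⟨h1, h2⟩ := hW j c
  have hB : 0 ≤ B := h1.trans h2
  unfold upd
  split_ifs
  · exact ⟨le_rfl, by positivity⟩
  · exact ⟨by positivity, mul_le_mul_of_nonneg_right h2 (by linarith)⟩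
  · exact ⟨h1, by nlinarith⟩

theorem upd_ne {m : ℕ} (M : Fin m → Perm (Fin n)) (k : Fin m) (g : Perm (Fin n))
    (W : Mx n) (j c : Fin n) (h : upd M k g W j c ≠ 0) : W j c ≠ 0 ∧ M k j ≠ g c := by
  unfold upd at h
  split_ifs at h with h1 h2
  · exact absurd rfl h
  · exact ⟨left_ne_zero_of_mul h, h1⟩
  · exact ⟨h, h1⟩

theorem run (hstep : S_STEP) : S_RUN := by
  intro V _ _ G _ n K D d ρ σ L A Am lam η hσ hD hd hA0 hL hA hAm hlam hlam' hbig hfac
  obtain ⟨γ, hγ⟩ : ∃ γ, γ = 25 * lam ^ 2 * Am ^ 4 := ⟨_, rfl⟩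
  have hγ0 : 0 ≤ γ := by
    rw [hγ]
    positivity
  obtain ⟨B, hB⟩ : ∃ B : ℝ, B = Fintype.card V * (5 * (n : ℝ) ^ 2) := ⟨_, rfl⟩
  have hB0 : 0 ≤ B := by
    rw [hB]
    positivity
  rw [← hγ, ← hB] at hbig
  have main : ∀ k, k ≤ Fintype.card V → ∃ U : Finset V, U.card = k ∧ ∃ φ W,
      State G ρ σ L γ lam U φ W := by
    intro k
    induction k with
    | zero => exact fun _ => ⟨∅, card_empty, _, _, init γ lam⟩
    | succ k ih =>
      intro hk
      obtain ⟨U, hUk, φ, W, hS⟩ := ih (by omega)
      have hne : (Uᶜ).Nonempty := by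
        rw [← card_pos, card_compl]
        omega
      obtain ⟨v, hv, hmin⟩ := exists_min_image Uᶜ ρ hne
      have hvU : v ∉ U := by
        rwa [mem_compl] at hv
      have hi₀ : (ρ v : ℕ) < K := (ρ v).2
      obtain ⟨i₀, hi⟩ : ∃ i₀ : ℕ, i₀ = (ρ v : ℕ) := ⟨_, rfl⟩
      rw [← hi] at hi₀
      have hUi : ∀ u ∈ U, (ρ u : ℕ) ≤ i₀ := fun u hu => by
        rw [hi]
        exact hS.mono u hu v hvU
      have hBd : ∀ w, Bd G ρ L U w ≤ A (i₀ + 1) := fun w => Bd_le hA0 hL hA hd hi₀ hUi w
      have hA1 : 1 ≤ A (i₀ + 1) := (prod_le_A hA0 hL hA (i₀ + 1) (by omega)).2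
      have hAm1 : A (i₀ + 1) ≤ Am := hAm _ (by omega)
      have hAm0 : 1 ≤ Am := hA1.trans hAm1
      -- the weights of `v` are good
      have hsv : ∀ w, (ss G U w : ℝ) ≤ D := fun w => by
        have : ss G U w ≤ D := by
          refine le_trans (card_le_card ?_) (hD w)
          exact filter_subset_filter _ (subset_univ _)
        exact_mod_cast this
      have hnn : ∀ w ∈ Uᶜ, 0 ≤ Psi lam (W w) * Real.exp (-(γ * ss G U w)) := fun w _ =>
        mul_nonneg (Psi_terms (W w)).1 (Real.exp_pos _).le
      have hv1 : Psi lam (W v) * Real.exp (-(γ * ss G U v)) ≤ B := by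
        rw [hB]
        exact (single_le_sum hnn hv).trans hS.pot
      have hgood : Good n η (A (i₀ + 1)) (W v) := by
        refine good_of hlam (fun j c => ⟨(hS.bd v hvU j c).1, (hS.bd v hvU j c).2.trans (hBd v)⟩) ?_
        refine le_trans ?_ hbig
        have h1 : Psi lam (W v) = Psi lam (W v) * Real.exp (-(γ * ss G U v)) *
            Real.exp (γ * ss G U v) := by
          rw [mul_assoc, ← Real.exp_add, neg_add_cancel, Real.exp_zero, mul_one]
        rw [h1, mul_comm]
        refine mul_le_mul ?_ hv1 (hnn v hv) (Real.exp_pos _).le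
        rw [Real.exp_le_exp]
        exact mul_le_mul_of_nonneg_left (hsv v) hγ0
      obtain ⟨M, hM1, hM2⟩ := hfac i₀ hi₀ (W v) hgood
      have hL3 := hL i₀ hi₀
      -- the new weights
      obtain ⟨W', hW'⟩ : ∃ W' : Fin (L i₀) → V → Mx n, W' = fun k w =>
        if G.Adj v w then upd M k (σ v w)⁻¹ (W w) else W w := ⟨_, rfl⟩
      have hss : ∀ w, w ∉ insert v U → ss G (insert v U) w =
          ss G U w + if G.Adj v w then 1 else 0 := by
        intro w _
        unfold ss
        rw [filter_insert]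
        by_cases h : G.Adj w v
        · rw [if_pos h, if_pos h.symm, card_insert_of_notMem]
          simp [hvU]
        · rw [if_neg h, if_neg (fun h' => h h'.symm), add_zero]
      have hpt : ∀ w ∈ (insert v U)ᶜ, ∑ k : Fin (L i₀), Psi lam (W' k w) *
          Real.exp (-(γ * ss G (insert v U) w)) ≤
          (L i₀ : ℝ) * (Psi lam (W w) * Real.exp (-(γ * ss G U w))) := by
        intro w hw
        rw [mem_compl] at hw
        have hwU : w ∉ U := fun h => hw (mem_insert_of_mem h)
        rw [← sum_mul, hss w hw, hW']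
        by_cases h : G.Adj v w
        · simp only [if_pos h]
          have h1 := hstep n (L i₀) M (σ v w)⁻¹ (W w) Am lam hL3 hM1
            (fun j c => ⟨(hS.bd w hwU j c).1, (hS.bd w hwU j c).2.trans ((hBd w).trans hAm1)⟩)
            hAm0 hlam.le hlam'
          rw [← hγ] at h1
          have h2 : Real.exp γ * Real.exp (-(γ * ((ss G U w + 1 : ℕ) : ℝ))) =
              Real.exp (-(γ * ss G U w)) := by
            rw [← Real.exp_add]
            congr 1
            push_cast
            ring
          calc _ ≤ (L i₀ : ℝ) * (Real.exp γ * Psi lam (W w)) *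
                Real.exp (-(γ * ((ss G U w + 1 : ℕ) : ℝ))) :=
                mul_le_mul_of_nonneg_right h1 (Real.exp_pos _).le
            _ = (L i₀ : ℝ) * (Psi lam (W w) * (Real.exp γ *
                Real.exp (-(γ * ((ss G U w + 1 : ℕ) : ℝ))))) := by ring
            _ = _ := by rw [h2]
        · simp only [if_neg h, add_zero, sum_const, card_univ, Fintype.card_fin, nsmul_eq_mul]
          exact le_of_eq (by ring)
      have hsub : (insert v U)ᶜ ⊆ Uᶜ := compl_subset_compl.2 (subset_insert _ _)
      have hsum : ∑ k : Fin (L i₀), ∑ w ∈ (insert v U)ᶜ, Psi lam (W' k w) *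
          Real.exp (-(γ * ss G (insert v U) w)) ≤ ∑ _k : Fin (L i₀), B := by
        rw [sum_comm]
        refine (sum_le_sum hpt).trans ?_
        rw [← mul_sum, sum_const, card_univ, Fintype.card_fin, nsmul_eq_mul]
        refine mul_le_mul_of_nonneg_left ?_ (by positivity)
        rw [hB]
        exact (sum_le_sum_of_subset_of_nonneg hsub fun w hw _ => hnn w hw).trans hS.pot
      have hne' : (univ : Finset (Fin (L i₀))).Nonempty := ⟨⟨0, by omega⟩, mem_univ _⟩
      obtain ⟨q, _, hq⟩ := exists_le_of_sum_le hne' hsum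
      refine ⟨insert v U, by rw [card_insert_of_notMem hvU, hUk], Function.update φ v (M q), W' q,
        ?_, ?_, ?_, ?_, ?_⟩
      · intro u hu w hw
        have hwU : w ∉ U := fun h => hw (mem_insert_of_mem h)
        rcases mem_insert.1 hu with rfl | hu
        · exact hmin w (mem_compl.2 hwU)
        · exact hS.mono u hu w hwU
      · -- packing
        have base : ∀ u ∈ U, G.Adj u v → ∀ i, M q i ≠ σ u v (φ u i) := fun u hu h i h' =>
          hS.supp v hvU u hu h i (M q i) (hM2 q i) h'.symm
        intro u hu w hw h i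
        have hne : ∀ x ∈ U, x ≠ v := fun x hx h => hvU (h ▸ hx)
        rcases mem_insert.1 hu with hu1 | hu1
        · rcases mem_insert.1 hw with hw1 | hw1
          · rw [hu1, hw1] at h
            exact absurd h (G.loopless.irrefl _)
          · rw [hu1] at h ⊢
            rw [Function.update_self, Function.update_of_ne (hne w hw1)]
            intro h'
            refine base w hw1 h.symm i ?_
            rw [h', hσ w v h.symm]
            simp
        · rcases mem_insert.1 hw with hw1 | hw1
          · rw [hw1] at h ⊢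
            rw [Function.update_self, Function.update_of_ne (hne u hu1)]
            exact base u hu1 h i
          · rw [Function.update_of_ne (hne w hw1), Function.update_of_ne (hne u hu1)]
            exact hS.pack u hu1 w hw1 h i
      · -- support
        intro w hw u hu h j c hne
        have hwU : w ∉ U := fun h => hw (mem_insert_of_mem h)
        rw [hW'] at hne
        rcases mem_insert.1 hu with rfl | hu
        · simp only [if_pos h] at hne
          rw [Function.update_self]
          intro h'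
          refine (upd_ne M q _ _ j c hne).2 ?_
          rw [← h']
          simp
        · have hne2 : u ≠ v := fun h => hvU (h ▸ hu)
          rw [Function.update_of_ne hne2]
          refine hS.supp w hwU u hu h j c ?_
          by_cases h2 : G.Adj v w
          · simp only [if_pos h2] at hne
            exact (upd_ne M q _ _ j c hne).1
          · simpa only [if_neg h2] using hne
      · -- bounds
        intro w hw j c
        have hwU : w ∉ U := fun h => hw (mem_insert_of_mem h)
        rw [hW']
        by_cases h : G.Adj v w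
        · simp only [if_pos h]
          have h1 := upd_bd hL3 M q (σ v w)⁻¹ (W w) (hS.bd w hwU) j c
          refine ⟨h1.1, h1.2.trans (le_of_eq ?_)⟩
          unfold Bd
          have e1 : ∀ i, si G ρ (insert v U) w i = si G ρ U w i + if i = i₀ then 1 else 0 := by
            intro i
            unfold si
            rw [filter_insert]
            by_cases h2 : i = i₀
            · rw [if_pos ⟨h.symm, by rw [h2, hi]⟩, if_pos h2, card_insert_of_notMem]
              simp [hvU]
            · rw [if_neg (fun h3 => h2 (by rw [← h3.2, hi])), if_neg h2, add_zero]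
          simp only [e1, pow_add]
          rw [prod_mul_distrib]
          congr 1
          rw [prod_eq_single i₀]
          · simp [rr]
          · intro b _ hb
            simp [hb]
          · intro hb
            exact absurd (mem_range.2 hi₀) hb
        · simp only [if_neg h]
          refine ⟨(hS.bd w hwU j c).1, (hS.bd w hwU j c).2.trans (le_of_eq ?_)⟩
          unfold Bd si
          refine prod_congr rfl fun i _ => ?_
          rw [filter_insert, if_neg (fun h2 => h h2.1.symm)]
      · rw [← hB]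
        exact hq
  obtain ⟨U, hU, φ, W, hS⟩ := main _ le_rfl
  have hU' : U = univ := (card_eq_iff_eq_univ U).1 hU
  subst hU'
  exact ⟨φ, fun u v h i => hS.pack u (mem_univ _) v (mem_univ _) h i⟩

end Pool.Agent.H713.AL
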